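import Pool.Agent.Helper80.HD.GoalsC

/-!
# Project HD (MP_6af536_nt), packet ORB: orbits
-/

set_option autoImplicit false

open MvPolynomial

noncomputable section

namespace Pool.Agent.Helper73.HD

open Pool.Agent.Helper80.HD

section

variable {K : Type} [Field K] [Algebra K ℂ] {N : ℕ}

theorem aeval_scale {P : MvPolynomial (Fin (N + 1)) K} {d : ℕ} (hP : P.IsHomogeneous d) (a : ℂ)
    (x : Fin (N + 1) → ℂ) : aeval (fun j => a * x j) P = a ^ d * aeval x P := by
  rw [aeval_def, aeval_def, eval₂_eq', eval₂_eq', Finset.mul_sum]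
  refine Finset.sum_congr rfl fun s hs => ?_
  have h1 : ∑ i, s i = d := by
    have h2 := hP (mem_support_iff.1 hs)
    have h4 : Finsupp.degree s = d := by
      rw [Finsupp.degree_eq_weight_one]
      exact h2
    rw [Finsupp.degree_eq_sum] at h4
    exact h4
  have h3 : ∏ i, (a * x i) ^ s i = a ^ d * ∏ i, x i ^ s i := by
    rw [← h1, ← Finset.prod_pow_eq_pow_sum, ← Finset.prod_mul_distrib]
    exact Finset.prod_congr rfl fun i _ => mul_pow _ _ _
  rw [h3]
  ring

theorem aeval_mem (F : IntermediateField K ℂ) (v : Fin (N + 1) → ℂ) (hv : ∀ j, v j ∈ F)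
    (P : MvPolynomial (Fin (N + 1)) K) : aeval v P ∈ F := by
  induction P using MvPolynomial.induction_on with
  | C a => rw [aeval_C]; exact F.algebraMap_mem a
  | add p q hp hq => rw [map_add]; exact F.add_mem hp hq
  | mul_X p i hp => rw [map_mul, aeval_X]; exact F.mul_mem hp (hv i)

theorem orb1 (f : RMap K N) (x y : Fin (N + 1) → ℂ) (hx : f.Mem x) (hy : f.IsImage x y) :
    f.Mem y ∧ ratioField K y ≤ ratioField K x := by
  obtain ⟨hx0, hxE⟩ := hx
  obtain ⟨hy0, hyl⟩ := hy
  obtain ⟨l, j₀, hj₀⟩ := f.cover x hx0 hxE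
  obtain ⟨c, hc⟩ := hyl l
  have hc0 : c ≠ 0 := by
    intro h
    rw [hc j₀, h, zero_mul] at hj₀
    exact hj₀ rfl
  refine ⟨⟨hy0, fun E hE => ?_⟩, ?_⟩
  · obtain ⟨d, hd⟩ := f.eqs_homog E hE
    have h1 := f.maps x hx0 hxE l E hE
    have h2 : (fun j => aeval x (f.G l j)) = fun j => c * y j := funext hc
    rw [h2, aeval_scale hd] at h1
    exact (mul_eq_zero.1 h1).resolve_left (pow_ne_zero _ hc0)
  · unfold ratioField
    rw [IntermediateField.adjoin_le_iff]
    rintro z ⟨i, j, rfl⟩
    show y i / y j ∈ ratioField K x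
    by_cases hyj : y j = 0
    · rw [hyj, div_zero]
      exact (ratioField K x).zero_mem
    · obtain ⟨p, hp⟩ := Function.ne_iff.1 hx0
      have hp' : x p ≠ 0 := hp
      set v : Fin (N + 1) → ℂ := fun k => x k / x p with hv
      have hvm : ∀ k, v k ∈ ratioField K x := fun k =>
        IntermediateField.subset_adjoin K _ ⟨k, p, rfl⟩
      have hxv : x = fun k => x p * v k := by
        funext k
        rw [hv]
        field_simp
      have hG : ∀ k, aeval x (f.G l k) = x p ^ f.deg l * aeval v (f.G l k) := by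
        intro k
        conv_lhs => rw [hxv]
        exact aeval_scale (f.G_homog l k) _ _
      have h1 : y i / y j = aeval v (f.G l i) / aeval v (f.G l j) := by
        have hq : x p ^ f.deg l ≠ 0 := pow_ne_zero _ hp'
        have h2 : c * y i = x p ^ f.deg l * aeval v (f.G l i) := by rw [← hc i, hG i]
        have h3 : c * y j = x p ^ f.deg l * aeval v (f.G l j) := by rw [← hc j, hG j]
        calc y i / y j = (c * y i) / (c * y j) := by rw [mul_div_mul_left _ _ hc0]
          _ = _ := by rw [h2, h3, mul_div_mul_left _ _ hq]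
      rw [h1]
      exact (ratioField K x).div_mem (aeval_mem _ v hvm _) (aeval_mem _ v hvm _)

theorem orb : S_ORB := by
  intro K _ _ N f
  refine ⟨orb1 f, ?_, ?_⟩
  · intro x y a b ha hb hx hy
    obtain ⟨hx0, hxE⟩ := hx
    obtain ⟨hy0, hyl⟩ := hy
    refine ⟨⟨?_, ?_⟩, ?_, ?_⟩
    · obtain ⟨p, hp⟩ := Function.ne_iff.1 hx0
      exact Function.ne_iff.2 ⟨p, mul_ne_zero ha hp⟩
    · intro E hE
      obtain ⟨d, hd⟩ := f.eqs_homog E hE
      rw [aeval_scale hd, hxE E hE, mul_zero]
    · obtain ⟨p, hp⟩ := Function.ne_iff.1 hy0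
      exact Function.ne_iff.2 ⟨p, mul_ne_zero hb hp⟩
    · intro l
      obtain ⟨c, hc⟩ := hyl l
      refine ⟨a ^ f.deg l * c / b, fun j => ?_⟩
      rw [aeval_scale (f.G_homog l j), hc j]
      field_simp
  · intro x hx
    have hmem : ∀ n, f.Mem (x n) := by
      intro n
      induction n with
      | zero => exact hx.1
      | succ n ih => exact (orb1 f _ _ ih (hx.2 n)).1
    refine ⟨hmem, ?_, ?_⟩
    · intro n m hnm
      induction m, hnm using Nat.le_induction with
      | base => exact le_rfl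
      | succ m _ ih => exact (orb1 f _ _ (hmem m) (hx.2 m)).2.trans ih
    · intro n m
      refine ⟨hmem _, fun i => ?_⟩
      exact hx.2 (n + i)

end

end Pool.Agent.Helper73.HD
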