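import Pool.Agent.Helper80.HD.GoalsB

/-!
# Project HD (MP_6af536_nt), packet NF: the norm form
-/

set_option autoImplicit false

open MvPolynomial

noncomputable section

namespace Pool.Agent.Helper73.HD

open Pool.Agent.Helper80.HD

section

variable {L F' : Type} [Field L] [Field F'] [Algebra L F'] [FiniteDimensional L F'] {N : ℕ}

/-- (1): the values of the norm form -/
theorem eval_normForm (x : Fin (N + 1) → F') (t : Fin (N + 1) → L) :
    eval t (normForm L F' x) = Algebra.norm L (∑ j, algebraMap L F' (t j) * x j) := by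
  have hm : Algebra.leftMulMatrix (Module.finBasis L F') (∑ j, algebraMap L F' (t j) * x j) =
      ∑ j, t j • Algebra.leftMulMatrix (Module.finBasis L F') (x j) := by
    rw [map_sum]
    refine Finset.sum_congr rfl fun j _ => ?_
    rw [← Algebra.smul_def, map_smul]
  unfold normForm
  rw [RingHom.map_det, Algebra.norm_eq_matrix_det (Module.finBasis L F'), hm]
  congr 1
  rw [map_sum]
  refine Finset.sum_congr rfl fun j _ => ?_
  ext a b
  simp [Matrix.smul_apply]

theorem eval_map_algebraMap {C' : Type} [Field C'] [Algebra L C'] (P : MvPolynomial (Fin (N + 1)) L)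
    (t : Fin (N + 1) → L) :
    eval (algebraMap L C' ∘ t) (map (algebraMap L C') P) = algebraMap L C' (eval t P) := by
  rw [eval_map, ← aeval_def, aeval_algebraMap_apply]
  rfl

/-- (2): the factorisation over an algebraically closed field -/
theorem map_normForm [CharZero L] {C' : Type} [Field C'] [IsAlgClosed C'] [Algebra L C']
    (x : Fin (N + 1) → F') :
    map (algebraMap L C') (normForm L F' x) = ∏ τ : F' →ₐ[L] C', ∑ j, C (τ (x j)) * X j := by
  refine funext_set (fun _ => Set.range (algebraMap L C'))
    (fun _ => Set.infinite_range_of_injective (algebraMap L C').injective) fun y hy => ?_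
  have h1 : ∀ j, ∃ t, algebraMap L C' t = y j := fun j => hy j (Set.mem_univ _)
  choose t ht using h1
  have h2 : y = algebraMap L C' ∘ t := funext fun j => (ht j).symm
  rw [h2, eval_map_algebraMap, eval_normForm, Algebra.norm_eq_prod_embeddings L C', map_prod]
  refine Finset.prod_congr rfl fun τ _ => ?_
  rw [map_sum, map_sum]
  refine Finset.sum_congr rfl fun j _ => ?_
  rw [map_mul, map_mul, eval_C, eval_X, AlgHom.commutes, mul_comm]
  rfl

theorem homog_normForm (x : Fin (N + 1) → F') :
    (normForm L F' x).IsHomogeneous (Module.finrank L F') := by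
  unfold normForm
  rw [Matrix.det_apply']
  refine IsHomogeneous.sum _ _ _ fun σ _ => ?_
  have hP : (∏ i, (∑ j, (X j : MvPolynomial (Fin (N + 1)) L) •
      (Algebra.leftMulMatrix (Module.finBasis L F') (x j)).map
        (C : L → MvPolynomial (Fin (N + 1)) L)) (σ i) i).IsHomogeneous
      (∑ _i : Fin (Module.finrank L F'), 1) := by
    refine IsHomogeneous.prod _ _ _ fun i _ => ?_
    rw [Matrix.sum_apply]
    refine IsHomogeneous.sum _ _ _ fun j _ => ?_
    rw [Matrix.smul_apply, Matrix.map_apply, smul_eq_mul]
    exact (isHomogeneous_X L j).mul (isHomogeneous_C _ _)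
  have hc : (((Equiv.Perm.sign σ : ℤˣ) : ℤ) : MvPolynomial (Fin (N + 1)) L) =
      C (((Equiv.Perm.sign σ : ℤˣ) : ℤ) : L) := by
    simp
  rw [hc]
  have h := (isHomogeneous_C (Fin (N + 1)) (((Equiv.Perm.sign σ : ℤˣ) : ℤ) : L)).mul hP
  simpa using h

theorem normForm_smul [CharZero L] (x : Fin (N + 1) → F') (c : F') :
    normForm L F' (fun j => c * x j) = C (Algebra.norm L c) * normForm L F' x := by
  refine MvPolynomial.funext fun t => ?_
  rw [map_mul, eval_C, eval_normForm, eval_normForm, ← map_mul, Finset.mul_sum]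
  congr 1
  refine Finset.sum_congr rfl fun j _ => ?_
  ring

theorem normForm_ne (x : Fin (N + 1) → F') (hx : x ≠ 0) : normForm L F' x ≠ 0 := by
  obtain ⟨j₀, hj⟩ := Function.ne_iff.1 hx
  intro h
  have h1 := eval_normForm x (Pi.single j₀ (1 : L))
  rw [h, map_zero] at h1
  have h2 : ∑ j, algebraMap L F' ((Pi.single j₀ (1 : L) : Fin (N + 1) → L) j) * x j = x j₀ := by
    rw [Finset.sum_eq_single j₀]
    · simp
    · intro b _ hb
      simp [Pi.single_eq_of_ne hb]
    · intro h
      exact absurd (Finset.mem_univ _) h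
  rw [h2] at h1
  exact (Algebra.norm_ne_zero_iff.2 hj) h1.symm

end

theorem nf : S_NF := by
  intro L F' _ _ _ _ _ N x
  exact ⟨eval_normForm x, fun C' _ _ _ => map_normForm x, homog_normForm x, normForm_smul x,
    normForm_ne x⟩

end Pool.Agent.Helper73.HD
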